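import Mathlib
import Pool.Agent.Y424.SB.Main
import Pool.Agent.Results.MP_7e34bc_co.ExactWeight

/-!
Unit-free sets of vertices of the `n`-cube.

* Q1 (all `1 ≤ k ≤ n`, the theorem of `ExactWeight`): `M(n,k) = m C(n-m,k-1)`, `m = ⌊(n+1)/k⌋`.
* Q2 in the whole linear range `n ≥ 5 k`: `N(n,k) = M(n,k)`; moreover the extremal sets of Q2 (and
  so those of Q1 in this range) are exactly the sets of all vertices of weight `k` with exactly one
  coordinate `1` in a set `P` with `|P| C(n-|P|,k-1) = M(n,k)`.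
* Q2 for `k ≤ 3` and all `n`.
* For all `n`, `k`: `N(n,k)` is at most the value of a strict chain of pairs.
-/

set_option autoImplicit false

namespace Pool.Agent.Results.MP_7e34bc_co.AtMostWeight

open Pool.Agent.Helper329.Sub
open Pool.Agent.Y424.SB

lemma N_one (n : ℕ) : N n 1 = 0 := by
  obtain ⟨p, q, C, _, _, hin, hle⟩ := N_le_val n 1
  have : C = ∅ := by
    rw [Finset.eq_empty_iff_forall_notMem]
    intro c hc
    obtain ⟨h1, _, h2, _, h3⟩ := hin c hc
    omega
  rw [this] at hle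
  simpa [val] using hle

lemma single_le {n k : ℕ} (hk : 2 ≤ k) (hk3 : k ≤ 3) (hkn : k ≤ n) {p q : ℕ}
    {C : Finset (ℕ × ℕ)} (hpq : p + q = n) (hC : StrictChain C) (hin : Inside p q k C) :
    val p q C ≤ max (F1 2 n) (F1 k n) := by
  rcases C.eq_empty_or_nonempty with h | h
  · rw [h]; simp [val]
  obtain ⟨c, hc, htop⟩ := exists_top hC h
  obtain ⟨c1, c2, c3, c4, c5⟩ := hin c hc
  have hall : C = {c} := by
    refine Finset.eq_singleton_iff_unique_mem.2 ⟨hc, ?_⟩
    intro d hd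
    obtain ⟨d1, d2, d3, d4, d5⟩ := hin d hd
    rcases htop d hd with h | h
    · exact h
    · omega
  rw [hall]
  simp only [val, Finset.sum_singleton]
  have hterm : p.choose c.1 * q.choose c.2 ≤ F1 (c.1 + c.2) n := by
    rw [← hpq]; exact choose_mul_choose_le c1 c3 c2 c4
  have : c.1 + c.2 = 2 ∨ c.1 + c.2 = k := by omega
  rcases this with h | h
  · rw [h] at hterm; exact hterm.trans (le_max_left _ _)
  · rw [h] at hterm; exact hterm.trans (le_max_right _ _)

lemma sizesLe_mono {n a b : ℕ} (h : a ≤ b) : sizesLe n a ⊆ sizesLe n b := by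
  rintro c ⟨S, hS, hU, rfl⟩
  exact ⟨S, fun v hv => ⟨(hS v hv).1, (hS v hv).2.1, (hS v hv).2.2.trans h⟩, hU, rfl⟩

lemma N_small {n k : ℕ} (hk : 2 ≤ k) (hk3 : k ≤ 3) (hkn : k ≤ n) :
    N n k = max (F1 2 n) (F1 k n) := by
  apply le_antisymm
  · obtain ⟨p, q, C, hpq, hC, hin, hle⟩ := N_le_val n k
    exact hle.trans (single_le hk hk3 hkn hpq hC hin)
  · apply max_le
    · exact (N_greatest n k).2 (sizesLe_mono hk (sizes_subset (by omega)
        (F1_mem le_rfl (by omega))))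
    · exact (N_greatest n k).2 (sizes_subset (by omega) (F1_mem hk hkn))

/-- **Main result.** Q1 for all `1 ≤ k ≤ n` (as in `ExactWeight`); `N(n,k)` is attained and bounded
by the values of strict chains, for all `n`, `k`; Q2 for all `k ≥ 2` and `n ≥ 5 k`, with all
extremal sets; Q2 for `k ≤ 3` and all `n ≥ k`. -/
theorem result :
    (∀ n k : ℕ, 1 ≤ k → k ≤ n → IsGreatest (sizes n k) (M n k) ∧ (k = 1 → M n k = 0) ∧
      (2 ≤ k → M n k = ((n + 1) / k) * (n - (n + 1) / k).choose (k - 1))) ∧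
    (∀ n k : ℕ, IsGreatest (sizesLe n k) (N n k) ∧
      ∃ (p q : ℕ) (C : Finset (ℕ × ℕ)), p + q = n ∧ StrictChain C ∧ Inside p q k C ∧
        N n k ≤ val p q C) ∧
    (∀ n k : ℕ, 2 ≤ k → 5 * k ≤ n →
      N n k = M n k ∧ N n k = ((n + 1) / k) * (n - (n + 1) / k).choose (k - 1) ∧
      ∀ S : Set (Fin n → ℝ),
        ((∀ v ∈ S, IsVertex v ∧ v ≠ 0 ∧ weight v ≤ k) ∧ UnitFree S ∧ S.ncard = N n k) ↔
          ∃ P : Finset (Fin n), P.card * (n - P.card).choose (k - 1) = N n k ∧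
            S = oneIn P k) ∧
    (∀ n : ℕ, N n 1 = 0 ∧ (2 ≤ n → N n 2 = M n 2) ∧ (3 ≤ n → N n 3 = max (M n 2) (M n 3))) := by
  have hM : ∀ n k : ℕ, 2 ≤ k → k ≤ n → M n k = F1 k n := fun n k hk hkn =>
    (ExactWeight.result n k (by omega) hkn).2.2.1 hk
  refine ⟨?_, ?_, ?_, ?_⟩
  · intro n k hk hkn
    obtain ⟨h1, h2, h3, _⟩ := ExactWeight.result n k hk hkn
    exact ⟨h1, h2, h3⟩
  · intro n k
    exact ⟨N_greatest n k, N_le_val n k⟩
  · intro n k hk hn
    refine ⟨?_, ?_, fun S => extremal_iff hk hn S⟩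
    · rw [N_eq hk hn, hM n k hk (by omega)]
    · rw [N_eq hk hn]; rfl
  · intro n
    refine ⟨N_one n, ?_, ?_⟩
    · intro hn
      rw [N_small le_rfl (by omega) hn, max_self, hM n 2 le_rfl hn]
    · intro hn
      rw [N_small (by omega) le_rfl hn, hM n 2 le_rfl (by omega), hM n 3 (by omega) hn]

end Pool.Agent.Results.MP_7e34bc_co.AtMostWeight
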